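import Mathlib
import Pool.Agent.W777.FV.Main
import Pool.Agent.H905R2.OppD

/-! # MP_77d073_nt: a counterexample to Oppenheim's conjecture has many small values

Let `n ≥ 3`, `V > 0`, `c > 0`, and let `T > (n! / n ^ n) V`, or more generally let `T` be such that
every product of `n` real linear forms with absolute determinant `V` takes a value of absolute value
`< T` at some nonzero integer point.  There are `κ > 0` and `C > 0`, depending only on `n`, `V`, `c`
and `T`, such that for every product `F = L₁ ⋯ L_n` of real linear forms with `|det L| = V` and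
`|F(p)| ≥ c` at all nonzero integer points `p`, one of the following holds.

* There is `A ∈ SL(n, ℤ)` with irreducible characteristic polynomial and real eigenvalues whose
  invariant planes are the hyperplanes `L_i = 0` (Oppenheim's conclusion).
* For every `N ≥ C (1 + G) ²`, where `G` bounds the entries of `L⁻¹`, `|F|` takes at least
  `κ (log N) ^ (1 / (n² - n + 1))` distinct values `< T` at the nonzero integer points with
  coordinates of absolute value at most `N`.

In particular Oppenheim's conclusion for `F` follows from the count for a single `N`. -/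

open Filter Topology

namespace Pool.Agent.Results.MP_77d073_nt.FewValues

theorem result (n : ℕ) (hn : 3 ≤ n) (V c T : ℝ) (hV : 0 < V) (hc : 0 < c)
    (hT : (n.factorial : ℝ) * V < (n : ℝ) ^ n * T ∨
      ∀ h : Matrix (Fin n) (Fin n) ℝ, |h.det| = V →
        ∃ x : Fin n → ℤ, x ≠ 0 ∧ |∏ i : Fin n, ∑ j : Fin n, h i j * (x j : ℝ)| < T) :
    ∃ κ : ℝ, 0 < κ ∧ ∃ C : ℝ, 0 < C ∧
      ∀ L : Fin n → Fin n → ℝ, |(Matrix.of L).det| = V →
        (∀ p : Fin n → ℤ, p ≠ 0 → c ≤ |∏ i, ∑ j, L i j * (p j : ℝ)|) →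
        (∃ A : Matrix (Fin n) (Fin n) ℤ,
          A.det = 1 ∧
          Irreducible (A.charpoly.map (Int.castRingHom ℚ)) ∧
          (∀ z : ℂ, Polynomial.aeval z A.charpoly = 0 → z.im = 0) ∧
          ∀ i : Fin n, ∀ x : Fin n → ℝ, ∑ j, L i j * x j = 0 →
            ∑ j, L i j * ((A.map (Int.cast : ℤ → ℝ)).mulVec x) j = 0) ∨
        ∀ G : ℝ, (∀ i j, |(Matrix.of L)⁻¹ i j| ≤ G) → ∀ N : ℕ, C * (1 + G) ^ 2 ≤ N →
          κ * (Real.log N) ^ (1 / ((n : ℝ) ^ 2 - n + 1)) ≤
            ({t : ℝ | ∃ p : Fin n → ℤ, p ≠ 0 ∧ (∀ i, |p i| ≤ (N : ℤ)) ∧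
              |∏ i : Fin n, ∑ j : Fin n, L i j * (p j : ℝ)| = t ∧ t < T}.ncard : ℝ) := by
  classical
  obtain ⟨κ, hκ, C, hC, hmain⟩ := Pool.Agent.W777.FV.few_values_propInt hn hV hc hT
  set D : ℕ := n ^ 2 - n + 1 with hD
  have hDR : (D : ℝ) = (n : ℝ) ^ 2 - n + 1 := by
    have h1 : n ≤ n ^ 2 := by nlinarith
    rw [hD]
    push_cast [Nat.cast_sub h1]
    ring
  have hD0 : (D : ℝ) ≠ 0 := by
    have : 0 < D := by omega
    exact_mod_cast this.ne'
  refine ⟨κ ^ (1 / (D : ℝ)) / 2, by positivity, C, hC, fun L hLV hcL => ?_⟩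
  have hdet : (Matrix.of L).det ≠ 0 := by
    intro h0
    rw [h0, abs_zero] at hLV
    exact hV.ne hLV
  have hL : LinearIndependent ℝ L := by
    have h1 : IsUnit (Matrix.of L) :=
      (Matrix.isUnit_iff_isUnit_det _).2 (isUnit_iff_ne_zero.2 hdet)
    exact Matrix.linearIndependent_rows_iff_isUnit.2 h1
  by_cases hP : H715R2.PropInt (Matrix.of L)
  · exact Or.inl (Pool.Agent.H905R2.Opp.opp_of_propInt (by omega) hL ⟨c, hc, hcL⟩ hP)
  right
  have hnu : H715R2.HasNu (Matrix.of L) c := hcL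
  intro G hG N hN
  set S : Set ℝ := {t : ℝ | ∃ p : Fin n → ℤ, p ≠ 0 ∧ (∀ i, |p i| ≤ (N : ℤ)) ∧
          |∏ i : Fin n, ∑ j : Fin n, L i j * (p j : ℝ)| = t ∧ t < T} with hS
  have h1 : κ * Real.log N ≤ ((Pool.Agent.W777.FV.VN (Matrix.of L) T N).ncard : ℝ) ^ D := by
    by_contra h
    exact hP (hmain (Matrix.of L) hLV hnu G hG N hN (not_le.1 h))
  have hSimg : S = (fun t => |t|) '' Pool.Agent.W777.FV.VN (Matrix.of L) T N := by
    ext t
    constructor
    · rintro ⟨p, hp, hpN, hpt, htT⟩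
      exact ⟨_, ⟨p, hp, hpN, rfl, by
        have : |H715R2.FF (Matrix.of L) (H715R2.iR p)| = t := hpt
        rw [this]; exact htT⟩, hpt⟩
    · rintro ⟨s, ⟨p, hp, hpN, hps, hsT⟩, rfl⟩
      refine ⟨p, hp, hpN, ?_, hsT⟩
      rw [← hps]
      rfl
  have hSfin : S.Finite := by
    rw [hSimg]
    exact (Pool.Agent.W777.FV.finite_VN _ _ _).image _
  have hsub : Pool.Agent.W777.FV.VN (Matrix.of L) T N ⊆ S ∪ (fun t => -t) '' S := by
    intro t ht
    have h2 : |t| ∈ S := by
      rw [hSimg]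
      exact ⟨t, ht, rfl⟩
    rcases abs_choice t with h | h
    · left; rwa [h] at h2
    · right
      exact ⟨|t|, h2, by simp only; rw [h, neg_neg]⟩
  have h2 : (Pool.Agent.W777.FV.VN (Matrix.of L) T N).ncard ≤ 2 * S.ncard := by
    refine (Set.ncard_le_ncard hsub (hSfin.union (hSfin.image _))).trans ?_
    refine (Set.ncard_union_le _ _).trans ?_
    have := Set.ncard_image_le (f := fun t : ℝ => -t) hSfin
    omega
  have h3 : κ * Real.log N ≤ (2 * (S.ncard : ℝ)) ^ D := by
    refine h1.trans (pow_le_pow_left₀ (Nat.cast_nonneg _) ?_ D)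
    exact_mod_cast h2
  have hlog : 0 ≤ Real.log N := Real.log_natCast_nonneg N
  have h4 : (κ * Real.log N) ^ (1 / (D : ℝ)) ≤ 2 * (S.ncard : ℝ) := by
    refine (Real.rpow_le_rpow (by positivity) h3 (by positivity)).trans (le_of_eq ?_)
    rw [← Real.rpow_natCast, ← Real.rpow_mul (by positivity), mul_one_div, div_self hD0,
      Real.rpow_one]
  rw [Real.mul_rpow hκ.le hlog] at h4
  rw [← hDR]
  linarith

end Pool.Agent.Results.MP_77d073_nt.FewValues
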